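import Pool.Agent.H85.SC.Targets

/-! # KSP: limit formula for the progressions (helper76), for `Pool.Agent.H85.SC` -/

set_option autoImplicit false

open Filter Topology

namespace Pool.Agent.H76.SC.K

open Pool.Agent.H85.SC Pool.Agent.H87.Synth

theorem ind_pos {P : ℤ → Prop} {z : ℤ} (h : P z) : ind P z = 1 := by
  unfold ind; simp [h]

theorem ind_neg {P : ℤ → Prop} {z : ℤ} (h : ¬ P z) : ind P z = 0 := by
  unfold ind; simp [h]

theorem ksp (hAPD : T_APD) (hSGV : T_SGV) (hKLM : T_KLM) (hAPM : T_APM) (hMUL : T_MUL)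
    (hLAB : T_LAB) : T_KSP := by
  classical
  intro S hS Λ f hΛ n hn x y u hx hy hu t ht
  obtain ⟨s, hs⟩ : ∃ s, s = Nat.size n := ⟨_, rfl⟩
  -- existence of the pieces
  have exK : ∀ b, ∃ v : L1, Act (ind (inK n b)) f v := fun b => by
    obtain ⟨v, hv, _⟩ := hMUL.2.2.2.2.2.2.2.1 _ _ (hAPM.2.1 n b) f
    exact ⟨v, hv⟩
  choose K hK using exK
  have exU : ∀ (b : ℕ) (c : ℤ), ∃ v : L1, Act (ind (fun z => (4 : ℤ) ^ (b + 1) ∣ z - c)) f v :=
    fun b c => by
      have h1 := hAPM.1 (4 ^ (b + 1)) c (by positivity)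
      obtain ⟨v, hv, _⟩ := hMUL.2.2.2.2.2.2.2.1 _ _ h1 f
      refine ⟨v, ?_⟩
      have e : (fun z : ℤ => ((4 ^ (b + 1) : ℕ) : ℤ) ∣ z - c) =
          (fun z : ℤ => (4 : ℤ) ^ (b + 1) ∣ z - c) := by
        funext z; push_cast; rfl
      rw [e] at hv
      exact hv
  have exU1 : ∀ b, ∃ v : L1, Act (ind (fun z => (4 : ℤ) ^ (b + 1) ∣ z - cc n - 4 ^ b)) f v :=
    fun b => by
      obtain ⟨v, hv⟩ := exU b (cc n + 4 ^ b)
      refine ⟨v, ?_⟩
      have e : (fun z : ℤ => (4 : ℤ) ^ (b + 1) ∣ z - (cc n + 4 ^ b)) =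
          (fun z : ℤ => (4 : ℤ) ^ (b + 1) ∣ z - cc n - 4 ^ b) := by
        funext z; rw [sub_sub]
      rw [e] at hv
      exact hv
  have exU3 : ∀ b, ∃ v : L1, Act (ind (fun z => (4 : ℤ) ^ (b + 1) ∣ z - cc n - 3 * 4 ^ b)) f v :=
    fun b => by
      obtain ⟨v, hv⟩ := exU b (cc n + 3 * 4 ^ b)
      refine ⟨v, ?_⟩
      have e : (fun z : ℤ => (4 : ℤ) ^ (b + 1) ∣ z - (cc n + 3 * 4 ^ b)) =
          (fun z : ℤ => (4 : ℤ) ^ (b + 1) ∣ z - cc n - 3 * 4 ^ b) := by
        funext z; rw [sub_sub]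
      rw [e] at hv
      exact hv
  choose U1 hU1 using exU1
  choose U3 hU3 using exU3
  have huniq := hMUL.2.2.2.2.2.2.2.2.2
  have hns : n < 2 ^ s := by rw [hs]; exact Nat.lt_size_self n
  -- one step
  have hstep : ∀ b, s ≤ b → K b = K (b + 1) + U1 b + t b + U3 b := by
    intro b hb
    have hnb : n < 2 ^ b := hns.trans_le (Nat.pow_le_pow_right (by norm_num) hb)
    apply huniq _ f _ _ (hK b)
    intro z
    rw [coeff_add, coeff_add, coeff_add, hK (b + 1) z, hU1 b z, ht b z, hU3 b z,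
      hAPD.2.2.2.1 n b hnb z]
    ring
  have hsu : K s = u := huniq _ f _ _ (hK s) (by rw [hs]; exact hu)
  have hsx : U1 s = x := huniq _ f _ _ (hU1 s) (by rw [hs]; exact hx)
  have hsy : U3 s = y := huniq _ f _ _ (hU3 s) (by rw [hs]; exact hy)
  -- regions meet the progressions only
  have hreg : ∀ z, (∀ n', n' ∈ S → ¬ inh n' z ∧ ¬ ing n' z) → lab S z = Lab.sg z := by
    intro z hz
    apply hLAB.2.1
    intro n' i' hn' hr
    rcases hr.2.2.2.1 with h | h
    · exact (hz n' hn').1 h.2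
    · exact (hz n' hn').2 h.2
  have hzero : ∀ v : L1, (∀ z, coeff v z ≠ 0 → ∀ n', n' ∈ S → ¬ inh n' z ∧ ¬ ing n' z) →
      Λ v = 0 := by
    intro v hv
    apply hSGV S hS Λ hΛ v
    intro z hz
    by_contra hne
    exact hz (hreg z (hv z hne))
  have hU10 : ∀ b, s < b → Λ (U1 b) = 0 := by
    intro b hb
    apply hzero
    intro z hz n' _
    rw [hU1 b z] at hz
    have hz1 : (4 : ℤ) ^ (b + 1) ∣ z - cc n - 4 ^ b := by
      by_contra hcon
      apply left_ne_zero_of_mul hz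
      exact ind_neg hcon
    exact hAPD.2.2.2.2.1 n b n' z (by rw [← hs]; exact hb) (Or.inl hz1)
  have hU30 : ∀ b, s < b → Λ (U3 b) = 0 := by
    intro b hb
    apply hzero
    intro z hz n' _
    rw [hU3 b z] at hz
    have hz1 : (4 : ℤ) ^ (b + 1) ∣ z - cc n - 3 * 4 ^ b := by
      by_contra hcon
      apply left_ne_zero_of_mul hz
      exact ind_neg hcon
    exact hAPD.2.2.2.2.1 n b n' z (by rw [← hs]; exact hb) (Or.inr hz1)
  have hsize : ∀ b, s ≤ b → Nat.size (n + 2 ^ b) = b + 1 := by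
    intro b hb
    have hnb : n < 2 ^ b := hns.trans_le (Nat.pow_le_pow_right (by norm_num) hb)
    apply le_antisymm
    · rw [Nat.size_le, pow_succ]; omega
    · have : b < Nat.size (n + 2 ^ b) := Nat.lt_size.2 (by omega)
      omega
  have ht0 : ∀ b, s ≤ b → n + 2 ^ b ∉ S → Λ (t b) = 0 := by
    intro b hb hbS
    apply hzero
    intro z hz n' hn'
    rw [ht b z] at hz
    have hz1 : inK (n + 2 ^ b) (b + 1) z := by
      by_contra hcon
      apply left_ne_zero_of_mul hz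
      exact ind_neg hcon
    rw [← hsize b hb] at hz1
    have h := hAPD.2.2.2.2.2.2 S hS (n + 2 ^ b) hbS z hz1 n'
    exact ⟨fun h1 => h (Or.inl h1) hn', fun h1 => h (Or.inr h1) hn'⟩
  have hex : Λ (ex (cc n)) = 0 := by
    apply hzero
    intro z hz n' _
    rw [coeff_ex] at hz
    have : cc n = z := by
      by_contra hcon
      rw [if_neg hcon] at hz
      exact hz rfl
    rw [← this]
    exact hAPD.2.2.2.2.2.1 n n'
  -- the sum
  have hsum : ∀ a, s + 1 ≤ a → Λ u = Λ (K a) + Λ x + Λ y + ∑ b ∈ Finset.Ico s a, Λ (t b) := by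
    intro a ha
    induction a, ha using Nat.le_induction with
    | base =>
      have h := hstep s le_rfl
      rw [hsu, hsx, hsy] at h
      rw [h]
      simp only [map_add, Nat.Ico_succ_singleton, Finset.sum_singleton]
      ring
    | succ a ha ih =>
      rw [ih, hstep a (by omega), Finset.sum_Ico_succ_top (by omega)]
      simp only [map_add]
      rw [hU10 a (by omega), hU30 a (by omega)]
      ring
  have hkids : ∀ a, ∑ b ∈ kids S n a, Λ (t b) = ∑ b ∈ Finset.Ico s a, Λ (t b) := by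
    intro a
    unfold kids
    rw [← hs, Finset.sum_filter]
    apply Finset.sum_congr rfl
    intro b hb
    rw [Finset.mem_Ico] at hb
    by_cases h : n + 2 ^ b ∈ S
    · rw [if_pos h]
    · rw [if_neg h, ht0 b hb.1 h]
  have hlim : Tendsto (fun a => Λ (K a)) atTop (𝓝 0) := by
    have hKl : Tendsto K atTop (𝓝 (coeff f (cc n) • ex (cc n))) := by
      rw [Metric.tendsto_atTop]
      intro ε hε
      obtain ⟨A, hA⟩ := hKLM n f ε hε
      refine ⟨A, fun a ha => ?_⟩
      rw [dist_eq_norm]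
      exact hA a ha _ (hK a)
    have := (Λ.continuous.tendsto _).comp hKl
    rw [map_smul, hex, smul_zero] at this
    exact this
  have hfin : Tendsto (fun a => Λ u - Λ x - Λ y - Λ (K a)) atTop (𝓝 (Λ u - Λ x - Λ y - 0)) :=
    tendsto_const_nhds.sub hlim
  rw [sub_zero] at hfin
  refine hfin.congr' ?_
  filter_upwards [eventually_ge_atTop (s + 1)] with a ha
  rw [hkids a, hsum a ha]
  ring

end Pool.Agent.H76.SC.K
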