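import Pool.Agent.H85.SC.Targets

/-! # SUP and SUX: cut-off sums and the selector of stay points (helper76),
for `Pool.Agent.H85.SC` -/

set_option autoImplicit false

open Filter Topology

namespace Pool.Agent.H76.SC

open Pool.Agent.H85.SC Pool.Agent.H87.Synth

theorem ind_pos {P : ℤ → Prop} {z : ℤ} (h : P z) : ind P z = 1 := by
  unfold ind; simp [h]

theorem ind_neg {P : ℤ → Prop} {z : ℤ} (h : ¬ P z) : ind P z = 0 := by
  unfold ind; simp [h]

theorem mem_RS {n i : ℕ} {z : ℤ} : z ∈ RS n i ↔ Reg n i z := by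
  classical
  unfold RS
  rw [Finset.mem_filter, Finset.mem_Ico]
  constructor
  · exact fun h => h.2
  · exact fun h => ⟨⟨h.2.1, h.2.2.1⟩, h⟩

theorem NN_mono (hNNA : T_NNA) {r r' : ℕ} (h : r ≤ r') : NN r ≤ NN r' := by
  rcases h.eq_or_lt with h | h
  · rw [h]
  · have := hNNA.2.2.1 r r' h
    omega

theorem mem_Ioo_of (hNNA : T_NNA) {r r' : ℕ} (h : r' ≤ r) {z : ℤ} (h1 : (NN r' : ℤ) ≤ z)
    (h2 : z < 2 * NN r') : z ∈ Finset.Ioo (-(NN (r + 1) : ℤ)) (NN (r + 1)) := by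
  rw [Finset.mem_Ioo]
  have h3 := NN_mono hNNA h
  have h4 := hNNA.2.1 r
  have h5 := hNNA.1 r'
  have h6 := hNNA.1 (r + 1)
  constructor <;> omega

theorem slot_le_of (hNNA : T_NNA) {r r' : ℕ} {z : ℤ} (h1 : (NN r' : ℤ) ≤ z)
    (h2 : z < NN (r + 1)) : r' ≤ r := by
  by_contra h
  have := NN_mono hNNA (show r + 1 ≤ r' by omega)
  omega

/-- a nonzero value at a point of the progressions of `n` puts the point in a region of `n` -/
theorem reg_of (hLAB : T_LAB) (hAPD : T_APD) (S : Set ℕ) (g : ℤ → ℂ)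
    (hg : ∀ z, lab S z = Lab.sg z → g z = 0) (n : ℕ) (z : ℤ) (hz : g z ≠ 0)
    (h : inh n z ∨ ing n z) : ∃ i, Reg n i z := by
  have h1 : lab S z ≠ Lab.sg z := fun h => hz (hg z h)
  have h2 : ∃ n' i', n' ∈ S ∧ Reg n' i' z := by
    by_contra hcon
    push Not at hcon
    exact h1 (hLAB.2.1 S z hcon)
  obtain ⟨n', i', _, hr⟩ := h2
  have hP : inh n' z ∨ ing n' z := by
    rcases hr.2.2.2.1 with h | h
    · exact Or.inl h.2
    · exact Or.inr h.2
  have : n = n' := by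
    rcases h with h | h <;> rcases hP with h' | h'
    · exact hAPD.1 n n' z h h'
    · exact absurd h' (hAPD.2.2.1 n n' z h)
    · exact absurd h (hAPD.2.2.1 n' n z h')
    · exact hAPD.2.1 n n' z h h'
  subst this
  exact ⟨i', hr⟩

theorem sup (hLAB : T_LAB) (hVVS : T_VVS) (hAPD : T_APD) (hUNQ : T_UNQ) (hNNA : T_NNA) :
    T_SUP := by
  classical
  intro S _ g hg n hn a ha r hr
  have hdisj : ((Finset.Ico (2 ^ Nat.size n) (2 ^ (a + 1)) : Finset ℕ) : Set ℕ).PairwiseDisjoint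
      (fun i => RS n i) := by
    intro i _ j _ hij
    rw [Function.onFun, Finset.disjoint_left]
    intro z hz hz'
    exact hij (hUNQ n i n j z (mem_RS.1 hz) (mem_RS.1 hz')).2
  rw [← Finset.sum_biUnion hdisj]
  symm
  have hsub : (Finset.Ico (2 ^ Nat.size n) (2 ^ (a + 1))).biUnion (fun i => RS n i) ⊆
      Finset.Ioo (-(NN (r + 1) : ℤ)) (NN (r + 1)) := by
    intro z hz
    rw [Finset.mem_biUnion] at hz
    obtain ⟨i, hi, hz⟩ := hz
    rw [Finset.mem_Ico] at hi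
    have hreg := mem_RS.1 hz
    refine mem_Ioo_of hNNA (r' := slot n i) ?_ hreg.2.1 hreg.2.2.1
    rw [hr]
    unfold slot
    have : i ≤ 2 ^ (a + 1) - 1 := by omega
    have := Nat.pow_le_pow_left this 2
    omega
  have heq : ∀ z ∈ (Finset.Ico (2 ^ Nat.size n) (2 ^ (a + 1))).biUnion (fun i => RS n i),
      g z = (ind (inh n) z + ind (ing n) z) * VV r z * g z := by
    intro z hz
    rw [Finset.mem_biUnion] at hz
    obtain ⟨i, hi, hz⟩ := hz
    rw [Finset.mem_Ico] at hi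
    have hreg := mem_RS.1 hz
    have h1 : ind (inh n) z + ind (ing n) z = 1 := by
      rcases hreg.2.2.2.1 with h | h
      · rw [ind_pos h.2, ind_neg (hAPD.2.2.1 n n z h.2), add_zero]
      · rw [ind_pos h.2, ind_neg (fun h' => hAPD.2.2.1 n n z h' h.2), zero_add]
    have h2 : VV r z = 1 := by
      rw [hVVS.2.2.2 r (slot n i) z hreg.2.1 hreg.2.2.1, if_pos]
      rw [hr]
      unfold slot
      have : i ≤ 2 ^ (a + 1) - 1 := by omega
      have := Nat.pow_le_pow_left this 2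
      omega
    rw [h1, h2]; simp
  rw [Finset.sum_congr rfl heq]
  apply Finset.sum_subset hsub
  intro z hz hzB
  by_contra hne
  have hg0 : g z ≠ 0 := right_ne_zero_of_mul hne
  have hi0 : ind (inh n) z + ind (ing n) z ≠ 0 := left_ne_zero_of_mul (left_ne_zero_of_mul hne)
  have hP : inh n z ∨ ing n z := by
    by_contra hcon
    push Not at hcon
    apply hi0
    rw [ind_neg hcon.1, ind_neg hcon.2, add_zero]
  obtain ⟨i, hreg⟩ := reg_of hLAB hAPD S g hg n z hg0 hP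
  apply hzB
  rw [Finset.mem_biUnion]
  refine ⟨i, ?_, mem_RS.2 hreg⟩
  rw [Finset.mem_Ico]
  rw [Finset.mem_Ioo] at hz
  have hs : slot n i ≤ r := slot_le_of hNNA hreg.2.1 hz.2
  constructor
  · have h1 : Nat.size n ≤ lg i := Nat.size_le.2 hreg.1.2
    have h2 : 2 ^ lg i ≤ i := Nat.pow_log_le_self 2 (by have := hreg.1.1; omega)
    exact (Nat.pow_le_pow_right (by norm_num) h1).trans h2
  · rw [hr] at hs
    unfold slot at hs
    have h3 : i ^ 2 ≤ (2 ^ (a + 1) - 1) ^ 2 := by omega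
    have h4 : i ≤ 2 ^ (a + 1) - 1 := (Nat.pow_le_pow_iff_left (by norm_num)).1 h3
    have h5 : 0 < 2 ^ (a + 1) := by positivity
    omega

theorem lg_two_pow (a : ℕ) : lg (2 ^ a) = a := Nat.log_pow (by norm_num) a

theorem lvl_two_pow (n a : ℕ) : lvl n (2 ^ a) = n := by
  unfold lvl; rw [lg_two_pow]; omega

theorem mem_FS {n i : ℕ} {s z : ℤ} : z ∈ FS n i s ↔
    Reg n i z ∧ s1 n i z = s ∧ s2 n i z = s ∧ s3 n i z = -s := by
  classical
  unfold FS
  rw [Finset.mem_filter, mem_RS]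

theorem sux (hLAB : T_LAB) (hDSJ : T_DSJ) (hVVS : T_VVS) (hAPD : T_APD) (hNNA : T_NNA) :
    T_SUX := by
  classical
  intro S _ g hg n hn a ha r hr
  have hr1 : 1 ≤ r := by
    rw [hr]; unfold slot
    have : 0 < (2 ^ a) ^ 2 := by positivity
    omega
  unfold gS
  rw [← Finset.sum_union (hDSJ.2.1 n (2 ^ a)).2.1]
  symm
  have hmem : ∀ z ∈ FS n (2 ^ a) 1 ∪ FS n (2 ^ a) (-1), ∃ s : ℤ, (s = 1 ∨ s = -1) ∧
      Reg n (2 ^ a) z ∧ s1 n (2 ^ a) z = s ∧ s2 n (2 ^ a) z = s ∧ s3 n (2 ^ a) z = -s := by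
    intro z hz
    rw [Finset.mem_union, mem_FS, mem_FS] at hz
    rcases hz with h | h
    · exact ⟨1, Or.inl rfl, h⟩
    · exact ⟨-1, Or.inr rfl, h⟩
  have hsub : FS n (2 ^ a) 1 ∪ FS n (2 ^ a) (-1) ⊆
      Finset.Ioo (-(NN (r + 1) : ℤ)) (NN (r + 1)) := by
    intro z hz
    obtain ⟨s, _, hreg, _⟩ := hmem z hz
    exact mem_Ioo_of hNNA (r' := slot n (2 ^ a)) (by rw [hr]) hreg.2.1 hreg.2.2.1
  have htr : ∀ z, Reg n (2 ^ a) z → inh n z → tr n a z =
      (1 + (s1 n (2 ^ a) z : ℂ) * s2 n (2 ^ a) z) * (1 - (s1 n (2 ^ a) z : ℂ) * s3 n (2 ^ a) z) / 4 := by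
    intro z _ hz
    unfold tr s1 s2 s3
    rw [ind_pos hz, lvl_two_pow, lg_two_pow]
    push_cast
    ring
  have heq : ∀ z ∈ FS n (2 ^ a) 1 ∪ FS n (2 ^ a) (-1),
      g z = tr n a z * ((VV r z : ℂ) - VV (r - 1) z) * g z := by
    intro z hz
    obtain ⟨s, hs, hreg, h1, h2, h3⟩ := hmem z hz
    have hinh : inh n z := by
      rcases hreg.2.2.2.1 with h | h
      · exact h.2
      · exact absurd (by rw [lg_two_pow]) h.1
    have hv1 : VV r z = 1 := by
      rw [hVVS.2.2.2 r (slot n (2 ^ a)) z hreg.2.1 hreg.2.2.1, if_pos (by rw [hr])]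
    have hv2 : VV (r - 1) z = 0 := by
      rw [hVVS.2.2.2 (r - 1) (slot n (2 ^ a)) z hreg.2.1 hreg.2.2.1, if_neg (by rw [← hr]; omega)]
    rw [htr z hreg hinh, h1, h2, h3, hv1, hv2]
    rcases hs with h | h <;> rw [h] <;> push_cast <;> ring
  rw [Finset.sum_congr rfl heq]
  apply Finset.sum_subset hsub
  intro z hz hzB
  by_contra hne
  have hg0 : g z ≠ 0 := right_ne_zero_of_mul hne
  have ht0 : tr n a z ≠ 0 := left_ne_zero_of_mul (left_ne_zero_of_mul hne)
  have hv0 : (VV r z : ℂ) - VV (r - 1) z ≠ 0 := right_ne_zero_of_mul (left_ne_zero_of_mul hne)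
  have hinh : inh n z := by
    by_contra hcon
    apply ht0
    unfold tr
    rw [ind_neg hcon, zero_mul]
  obtain ⟨i, hreg⟩ := reg_of hLAB hAPD S g hg n z hg0 (Or.inl hinh)
  have hi : i = 2 ^ lg i := by
    rcases hreg.2.2.2.1 with h | h
    · exact h.1
    · exact absurd h.2 (hAPD.2.2.1 n n z hinh)
  have hslot : slot n i = r := by
    rw [hVVS.2.2.2 r (slot n i) z hreg.2.1 hreg.2.2.1,
      hVVS.2.2.2 (r - 1) (slot n i) z hreg.2.1 hreg.2.2.1] at hv0
    by_contra hcon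
    apply hv0
    rcases Nat.lt_or_gt_of_ne hcon with h | h
    · rw [if_pos (by omega), if_pos (by omega)]; simp
    · rw [if_neg (by omega), if_neg (by omega)]; simp
  have hi2 : i = 2 ^ a := by
    rw [hr] at hslot
    unfold slot at hslot
    have h3 : i ^ 2 = (2 ^ a) ^ 2 := by omega
    exact Nat.pow_left_injective (by norm_num : 2 ≠ 0) h3
  subst hi2
  obtain ⟨hs1, hs2, hs3⟩ := hLAB.2.2.2.2.2 n (2 ^ a) z hreg
  rw [htr z hreg hinh] at ht0
  apply hzB
  rw [Finset.mem_union, mem_FS, mem_FS]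
  rcases hs1 with h1 | h1 <;> rcases hs2 with h2 | h2 <;> rcases hs3 with h3 | h3 <;>
    rw [h1, h2, h3] at ht0 <;>
    first
      | (exfalso; apply ht0; push_cast; norm_num; done)
      | (left; exact ⟨hreg, h1, h2, by rw [h3]⟩)
      | (right; exact ⟨hreg, h1, h2, by rw [h3]; norm_num⟩)

end Pool.Agent.H76.SC
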